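import Pool.Agent.Y393.RS.Stmts

/-!
# Job 4449 (RS7): mixture formula for edge probabilities
-/

set_option autoImplicit false

namespace Pool.Agent.Y333.RS

open Finset Pool.Agent.Y393.RS

variable {n : ℕ}

/-- the condition on a pair -/
def Cn (G : SimpleGraph (Fin n)) (e : Sym2 (Fin n)) (a : Fin 3) (b : Bool) : Prop :=
  e.IsDiag ∨ ((a = 0 ∨ (a = 2 ∧ b = true)) ↔ e ∈ G.edgeSet)

lemma rg_eq_iff (θ : Sym2 (Fin n) → Fin 3) (χ : Coins n) (G : SimpleGraph (Fin n)) :
    rg (FG 0 θ) (FG 2 θ) χ = G ↔ ∀ e, Cn G e (θ e) (χ e) := by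
  constructor
  · rintro rfl e
    induction e using Sym2.inductionOn with
    | hf u v =>
      by_cases huv : u = v
      · left
        rw [Sym2.mk_isDiag_iff]
        exact huv
      · right
        rw [SimpleGraph.mem_edgeSet]
        constructor
        · rintro (h | ⟨h1, h2⟩)
          · exact Or.inl ⟨huv, h⟩
          · exact Or.inr ⟨⟨huv, h1⟩, h2⟩
        · rintro (h | ⟨h1, h2⟩)
          · exact Or.inl h.2
          · exact Or.inr ⟨h1.2, h2⟩
  · intro h
    ext u v
    by_cases huv : u = v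
    · subst huv
      simp
    · have h1 := (h s(u, v)).resolve_left (by rw [Sym2.mk_isDiag_iff]; exact huv)
      rw [SimpleGraph.mem_edgeSet] at h1
      rw [← h1]
      constructor
      · rintro (h | ⟨h1, h2⟩)
        · exact Or.inl h.2
        · exact Or.inr ⟨h1.2, h2⟩
      · rintro (h | ⟨h1, h2⟩)
        · exact Or.inl ⟨huv, h⟩
        · exact Or.inr ⟨⟨huv, h1⟩, h2⟩

open Classical in
/-- the factor of a pair -/
lemma factor (q : Sym2 (Fin n) → ℝ) (G : SimpleGraph (Fin n)) (e : Sym2 (Fin n)) :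
    ∑ a : Fin 3, tw q e a * (∑ b : Bool, (if Cn G e a b then (1 : ℝ) / 2 else 0)) =
      if e.IsDiag then 1 else if e ∈ G.edgeSet then q e else 1 - q e := by
  unfold Cn tw
  by_cases h1 : e.IsDiag
  · simp only [h1, true_or, if_true, Fin.sum_univ_three, Fintype.sum_bool]
    simp
    ring
  · by_cases h2 : e ∈ G.edgeSet
    · simp only [h1, h2, false_or, if_false, if_true, Fin.sum_univ_three, Fintype.sum_bool, iff_true]
      simp
      ring
    · simp only [h1, h2, false_or, if_false, Fin.sum_univ_three, Fintype.sum_bool, iff_false]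
      simp
      ring

open Classical in
/-- the probability of a graph as a mixture -/
lemma wt_eq (q : Sym2 (Fin n) → ℝ) (G : SimpleGraph (Fin n)) :
    wt q G = ∑ θ : Sym2 (Fin n) → Fin 3, (∏ e, tw q e (θ e)) *
      ∑ χ : Coins n, (if rg (FG 0 θ) (FG 2 θ) χ = G then (1 : ℝ) / Fintype.card (Coins n) else 0) := by
  have h1 : ∀ (θ : Sym2 (Fin n) → Fin 3) (χ : Coins n),
      (if rg (FG 0 θ) (FG 2 θ) χ = G then (1 : ℝ) / Fintype.card (Coins n) else 0) =
        ∏ e, (if Cn G e (θ e) (χ e) then (1 : ℝ) / 2 else 0) := by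
    intro θ χ
    by_cases h : rg (FG 0 θ) (FG 2 θ) χ = G
    · rw [if_pos h]
      rw [rg_eq_iff] at h
      rw [Finset.prod_congr rfl fun e _ => if_pos (h e)]
      rw [Finset.prod_const, Fintype.card_fun, Fintype.card_bool, Finset.card_univ]
      push_cast
      rw [one_div, one_div, inv_pow]
    · rw [if_neg h]
      rw [rg_eq_iff] at h
      push Not at h
      obtain ⟨e, he⟩ := h
      exact (Finset.prod_eq_zero (Finset.mem_univ e) (if_neg he)).symm
  have h2 : ∀ θ : Sym2 (Fin n) → Fin 3, (∏ e, tw q e (θ e)) *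
      ∑ χ : Coins n, (if rg (FG 0 θ) (FG 2 θ) χ = G then (1 : ℝ) / Fintype.card (Coins n) else 0) =
        ∏ e, (tw q e (θ e) * ∑ b : Bool, (if Cn G e (θ e) b then (1 : ℝ) / 2 else 0)) := by
    intro θ
    rw [Finset.sum_congr rfl fun χ _ => h1 θ χ, Finset.prod_mul_distrib]
    congr 1
    have h3 := Finset.prod_univ_sum (fun _ : Sym2 (Fin n) => (Finset.univ : Finset Bool))
      (fun e b => if Cn G e (θ e) b then (1 : ℝ) / 2 else 0)
    rw [h3, Fintype.piFinset_univ]
  rw [Finset.sum_congr rfl fun θ _ => h2 θ]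
  have h3 := Finset.prod_univ_sum (fun _ : Sym2 (Fin n) => (Finset.univ : Finset (Fin 3)))
    (fun e a => tw q e a * ∑ b : Bool, (if Cn G e a b then (1 : ℝ) / 2 else 0))
  rw [Fintype.piFinset_univ] at h3
  rw [← h3, Finset.prod_congr rfl fun e _ => factor q G e]
  have h4 : ∏ e : Sym2 (Fin n), (if e.IsDiag then (1 : ℝ) else if e ∈ G.edgeSet then q e else 1 - q e) =
      ∏ e ∈ Finset.univ.filter (fun e : Sym2 (Fin n) => ¬ e.IsDiag), (if e ∈ G.edgeSet then q e else 1 - q e) := by
    rw [Finset.prod_filter]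
    refine Finset.prod_congr rfl fun e _ => ?_
    by_cases h : e.IsDiag
    · rw [if_pos h, if_neg (not_not.2 h)]
    · rw [if_neg h, if_pos h]
  rw [h4]
  unfold wt
  exact (Finset.prod_subtype (Finset.univ.filter (fun e : Sym2 (Fin n) => ¬ e.IsDiag))
    (p := fun e => ¬ e.IsDiag) (fun e => by rw [Finset.mem_filter]; exact and_iff_right (Finset.mem_univ e))
    (fun e => if e ∈ G.edgeSet then q e else 1 - q e)).symm

theorem mixid : S_mixid := by
  classical
  intro n q _ P
  have h1 : ∀ (θ : Sym2 (Fin n) → Fin 3), pr (fun χ => P (rg (FG 0 θ) (FG 2 θ) χ)) =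
      ∑ χ : Coins n, (if P (rg (FG 0 θ) (FG 2 θ) χ) then (1 : ℝ) / Fintype.card (Coins n) else 0) := by
    intro θ
    unfold pr
    rw [← Finset.sum_filter, Finset.sum_const, nsmul_eq_mul, mul_one_div]
  have h2 : prq q P = ∑ G : SimpleGraph (Fin n), (if P G then wt q G else 0) := by
    unfold prq
    congr!
  have h3 : ∀ G : SimpleGraph (Fin n), (if P G then wt q G else 0) =
      ∑ θ : Sym2 (Fin n) → Fin 3, ∑ χ : Coins n, (if rg (FG 0 θ) (FG 2 θ) χ = G then
        (if P G then (∏ e, tw q e (θ e)) * ((1 : ℝ) / Fintype.card (Coins n)) else 0) else 0) := by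
    intro G
    by_cases hP : P G
    · rw [if_pos hP, wt_eq q G]
      refine Finset.sum_congr rfl fun θ _ => ?_
      rw [Finset.mul_sum]
      refine Finset.sum_congr rfl fun χ _ => ?_
      rw [if_pos hP]
      split_ifs
      · rfl
      · rw [mul_zero]
    · rw [if_neg hP]
      symm
      refine Finset.sum_eq_zero fun θ _ => Finset.sum_eq_zero fun χ _ => ?_
      rw [if_neg hP, ite_self]
  rw [h2, Finset.sum_congr rfl fun G _ => h3 G, Finset.sum_comm]
  refine Finset.sum_congr rfl fun θ _ => ?_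
  rw [Finset.sum_comm, h1 θ, Finset.mul_sum]
  refine Finset.sum_congr rfl fun χ _ => ?_
  rw [Finset.sum_ite_eq Finset.univ (rg (FG 0 θ) (FG 2 θ) χ), if_pos (Finset.mem_univ _)]
  split_ifs
  · rfl
  · rw [mul_zero]

end Pool.Agent.Y333.RS
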